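import Pool.Agent.V5helper76.FD.Digits

/-!
# Upper bounds for the number of terms and for the number of odd terms
-/

set_option autoImplicit false

namespace Pool.Agent.V5helper76.FD

open Finset Pool.Agent.V5helper5.SQ

lemma T_pos {x : ℤ} (hx : 0 < x) : 0 < T x := by
  unfold T
  split_ifs <;> omega

lemma iter_pos {x : ℤ} (hx : 0 < x) (t : ℕ) : 0 < T^[t] x := by
  induction t with
  | zero => exact hx
  | succ t ih => rw [Function.iterate_succ_apply']; exact T_pos ih

lemma upper {x : ℤ} (hx : 0 < x) {Y : ℕ} (hY : 0 < Y) (s : ℕ) : (2 : ℝ) ^ s * (T^[s] x : ℝ) ≤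
    3 ^ od s x * x * ((4 / 3) ^ ((range s).filter fun t => T^[t] x < (Y : ℤ)).card * (1 + 1 / (3 * Y)) ^ od s x) := by
  have hYR : (0 : ℝ) < Y := by exact_mod_cast hY
  have hxR : (0 : ℝ) < x := by exact_mod_cast hx
  have hone : (1 : ℝ) ≤ 1 + 1 / (3 * Y) := by
    have : (0 : ℝ) < 1 / (3 * Y) := by positivity
    linarith
  induction s with
  | zero => simp [od]
  | succ s ih =>
    set y := T^[s] x with hy
    have hy0 : 0 < y := iter_pos hx s
    have hyR : (0 : ℝ) < y := by exact_mod_cast hy0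
    have hy1 : (1 : ℝ) ≤ y := by exact_mod_cast hy0
    rw [Function.iterate_succ_apply', ← hy, od, ← hy]
    set P : ℝ := (4 / 3) ^ ((range s).filter fun t => T^[t] x < (Y : ℤ)).card with hP
    have hP0 : 0 < P := by positivity
    have hP1 : (4 / 3 : ℝ) ^ ((range (s + 1)).filter fun t => T^[t] x < (Y : ℤ)).card =
        P * (if y < (Y : ℤ) then 4 / 3 else 1) := by
      rw [Finset.range_add_one, Finset.filter_insert, ← hy]
      split_ifs with h
      · rw [Finset.card_insert_of_notMem (by simp), pow_succ]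
      · rw [mul_one]
    rw [hP1]
    have h2 := two_T y
    have hfac : (1 : ℝ) ≤ (if y < (Y : ℤ) then 4 / 3 else 1) := by split_ifs <;> norm_num
    split_ifs at h2 ⊢ with h h' h'
    all_goals try rw [if_pos h'] at hfac
    all_goals try rw [if_neg h'] at hfac
    · have h3 : (2 : ℝ) * (T y : ℝ) = y := by exact_mod_cast h2
      rw [add_zero, pow_succ]
      calc (2 : ℝ) ^ s * 2 * (T y : ℝ) = 2 ^ s * y := by rw [mul_assoc, h3]
        _ ≤ 3 ^ od s x * x * (P * (1 + 1 / (3 * Y)) ^ od s x) := ih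
        _ ≤ 3 ^ od s x * x * (P * (1 + 1 / (3 * Y)) ^ od s x) * (4 / 3) :=
          le_mul_of_one_le_right (by positivity) hfac
        _ = _ := by ring
    · have h3 : (2 : ℝ) * (T y : ℝ) = y := by exact_mod_cast h2
      rw [add_zero, pow_succ, mul_one]
      calc (2 : ℝ) ^ s * 2 * (T y : ℝ) = 2 ^ s * y := by rw [mul_assoc, h3]
        _ ≤ 3 ^ od s x * x * (P * (1 + 1 / (3 * Y)) ^ od s x) := ih
    · have h3 : (2 : ℝ) * (T y : ℝ) = 3 * y + 1 := by exact_mod_cast h2
      have h4 : (2 : ℝ) * (T y : ℝ) ≤ 3 * y * (4 / 3) := by rw [h3]; linarith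
      have h5 : (3 : ℝ) * y * (4 / 3) ≤ 3 * y * (4 / 3) * (1 + 1 / (3 * Y)) :=
        le_mul_of_one_le_right (by positivity) hone
      calc (2 : ℝ) ^ (s + 1) * (T y : ℝ) = 2 ^ s * (2 * (T y : ℝ)) := by ring
        _ ≤ 2 ^ s * (3 * y * (4 / 3) * (1 + 1 / (3 * Y))) :=
          mul_le_mul_of_nonneg_left (h4.trans h5) (by positivity)
        _ = (2 ^ s * y) * (3 * (4 / 3) * (1 + 1 / (3 * Y))) := by ring
        _ ≤ (3 ^ od s x * x * (P * (1 + 1 / (3 * Y)) ^ od s x)) * (3 * (4 / 3) * (1 + 1 / (3 * Y))) := by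
          gcongr
        _ = _ := by ring
    · have h3 : (2 : ℝ) * (T y : ℝ) = 3 * y + 1 := by exact_mod_cast h2
      have hYy : (Y : ℝ) ≤ y := by exact_mod_cast (not_lt.1 h')
      have h4 : (2 : ℝ) * (T y : ℝ) ≤ 3 * y * (1 + 1 / (3 * Y)) := by
        rw [h3]
        have : (1 : ℝ) ≤ y / Y := by rwa [one_le_div hYR]
        have e : 3 * (y : ℝ) * (1 + 1 / (3 * Y)) = 3 * y + y / Y := by field_simp
        rw [e]; linarith
      calc (2 : ℝ) ^ (s + 1) * (T y : ℝ) = 2 ^ s * (2 * (T y : ℝ)) := by ring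
        _ ≤ 2 ^ s * (3 * y * (1 + 1 / (3 * Y))) := by gcongr
        _ = (2 ^ s * y) * (3 * (1 + 1 / (3 * Y))) := by ring
        _ ≤ (3 ^ od s x * x * (P * (1 + 1 / (3 * Y)) ^ od s x)) * (3 * (1 + 1 / (3 * Y))) := by
          gcongr
        _ = _ := by ring

lemma lower {x : ℤ} (s : ℕ) : (3 : ℝ) ^ od s x * x ≤ (2 : ℝ) ^ s * (T^[s] x : ℝ) := by
  have h1 := branch x s
  have h2 := (cc_bounds x s).1
  have h3 : (3 : ℤ) ^ od s x * x ≤ 2 ^ s * T^[s] x := by linarith
  exact_mod_cast h3

/-- the time of a trajectory to `1` and the number of its odd terms -/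
lemma time_odd {n s : ℕ} (hn : 0 < n) (h1 : T^[s] (n : ℤ) = 1)
    (hinj : Set.InjOn (fun t => T^[t] (n : ℤ)) (Set.Iio s)) :
    Real.log n + od s n * Real.log 3 ≤ s * Real.log 2 ∧ ∀ Y : ℕ, 0 < Y →
      s * Real.log 2 ≤ Real.log n + od s n * Real.log 3 + (2 * Y + 1) + od s n / (3 * Y) := by
  have hnR : (0 : ℝ) < n := by exact_mod_cast hn
  constructor
  · have h2 := lower (x := (n : ℤ)) s
    rw [h1, Int.cast_one, mul_one, Int.cast_natCast] at h2
    have h3 := Real.log_le_log (by positivity) h2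
    rw [Real.log_mul (by positivity) hnR.ne', Real.log_pow, Real.log_pow] at h3
    linarith
  · intro Y hY
    have hYR : (0 : ℝ) < Y := by exact_mod_cast hY
    have h2 := upper (x := (n : ℤ)) (by exact_mod_cast hn) hY s
    rw [h1, Int.cast_one, mul_one, Int.cast_natCast] at h2
    set c := ((range s).filter fun t => T^[t] (n : ℤ) < (Y : ℤ)).card with hc
    have h3 := Real.log_le_log (by positivity) h2
    rw [Real.log_mul (by positivity) (by positivity), Real.log_mul (by positivity) hnR.ne',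
      Real.log_mul (by positivity) (by positivity), Real.log_pow, Real.log_pow, Real.log_pow, Real.log_pow] at h3
    have h4 : Real.log (4 / 3) ≤ 1 := by
      have := Real.log_le_sub_one_of_pos (show (0 : ℝ) < 4 / 3 by norm_num)
      linarith
    have h5 : Real.log (1 + 1 / (3 * Y)) ≤ 1 / (3 * Y) := by
      have := Real.log_le_sub_one_of_pos (show (0 : ℝ) < 1 + 1 / (3 * Y) by positivity)
      linarith
    have h6 : (c : ℝ) ≤ 2 * Y + 1 := by
      have : c ≤ 2 * Y + 1 := by
        refine (Finset.card_le_card ?_).trans (small_card hinj Y)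
        intro t ht
        rw [mem_filter] at ht ⊢
        refine ⟨ht.1, ?_⟩
        rw [abs_of_pos (iter_pos (by exact_mod_cast hn) t)]
        exact ht.2.le
      exact_mod_cast this
    have h7 : (0 : ℝ) ≤ Real.log (4 / 3) := Real.log_nonneg (by norm_num)
    have h8 : (c : ℝ) * Real.log (4 / 3) ≤ 2 * Y + 1 := by
      calc (c : ℝ) * Real.log (4 / 3) ≤ c * 1 := by gcongr
        _ ≤ _ := by linarith
    have h9 : (od s n : ℝ) * Real.log (1 + 1 / (3 * Y)) ≤ od s n / (3 * Y) := by
      calc (od s n : ℝ) * Real.log (1 + 1 / (3 * Y)) ≤ od s n * (1 / (3 * Y)) := by gcongr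
        _ = _ := by ring
    linarith

/-- an upper bound `(a + o(1)) log n` -/
def Up (Q : ℕ → ℕ → Prop) (f : ℕ → ℕ → ℝ) (a : ℝ) : Prop :=
  ∀ δ > 0, ∃ N : ℕ, ∀ n s : ℕ, N ≤ n → Q n s → f n s ≤ (a + δ) * Real.log n

lemma log_large (B : ℝ) : ∃ N : ℕ, ∀ n : ℕ, N ≤ n → B ≤ Real.log n := by
  obtain ⟨N, hN⟩ := exists_nat_ge (Real.exp B)
  refine ⟨N, fun n hn => ?_⟩
  rw [← Real.log_exp B]
  exact Real.log_le_log (Real.exp_pos _) (hN.trans (by exact_mod_cast hn))

lemma up_iff {Q : ℕ → ℕ → Prop} {o c : ℕ → ℕ → ℝ} (h0 : ∀ n s, 0 ≤ c n s) (hco : ∀ n s, c n s ≤ o n s)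
    (h : ∀ ε > 0, ∃ K : ℝ, ∀ n s, Q n s → o n s ≤ c n s + ε * o n s + K) (a : ℝ) : Up Q o a ↔ Up Q c a := by
  constructor
  · intro H δ hδ
    obtain ⟨N, hN⟩ := H δ hδ
    exact ⟨N, fun n s hn hq => (hco n s).trans (hN n s hn hq)⟩
  · intro H δ hδ
    obtain ⟨N, hN⟩ := H (δ / 4) (by positivity)
    set e : ℝ := a + δ / 4 with he
    set ε : ℝ := min (1 / 2) (δ / (8 * (|e| + 1))) with hε
    have hε0 : 0 < ε := lt_min (by norm_num) (by positivity)
    have hε1 : ε ≤ 1 / 2 := min_le_left _ _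
    have hε2 : ε * (8 * (|e| + 1)) ≤ δ := by
      rw [← le_div_iff₀ (by positivity)]; exact min_le_right _ _
    obtain ⟨K, hK⟩ := h ε hε0
    obtain ⟨N', hN'⟩ := log_large (max 1 (4 * |K| / δ))
    refine ⟨max N N', fun n s hn hq => ?_⟩
    have h1 := hN n s ((le_max_left _ _).trans hn) hq
    have h2 := hN' n ((le_max_right _ _).trans hn)
    have h3 := hK n s hq
    have hL1 : 1 ≤ Real.log n := (le_max_left _ _).trans h2
    have hLK : |K| ≤ δ / 4 * Real.log n := by
      have := (le_max_right _ _).trans h2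
      rw [div_le_iff₀ hδ] at this
      linarith
    have h0' := h0 n s
    have he0 : 0 ≤ e := by
      by_contra hcc
      push Not at hcc
      have : e * Real.log n < 0 := mul_neg_of_neg_of_pos hcc (by linarith)
      linarith
    rw [abs_of_nonneg he0] at hε2
    -- (1 - ε) o ≤ e L + |K|
    have h4 : (1 - ε) * o n s ≤ e * Real.log n + δ / 4 * Real.log n := by
      have := le_abs_self K
      linarith
    have h5 : o n s ≤ (1 + 2 * ε) * ((1 - ε) * o n s) := by
      have ho : 0 ≤ o n s := h0'.trans (hco n s)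
      have : 1 ≤ (1 + 2 * ε) * (1 - ε) := by nlinarith
      calc o n s = 1 * o n s := by ring
        _ ≤ (1 + 2 * ε) * (1 - ε) * o n s := by gcongr
        _ = _ := by ring
    have h6 : (1 + 2 * ε) * (e * Real.log n + δ / 4 * Real.log n) ≤ (a + δ) * Real.log n := by
      have e1 : (1 + 2 * ε) * (e * Real.log n + δ / 4 * Real.log n) =
          ((1 + 2 * ε) * (e + δ / 4)) * Real.log n := by ring
      rw [e1]
      apply mul_le_mul_of_nonneg_right _ (by linarith)
      have e2 : a = e - δ / 4 := by rw [he]; ring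
      have e3 : 2 * ε * (e + δ / 4) ≤ δ / 2 := by
        have : ε * e ≤ δ / 8 := by nlinarith
        nlinarith
      rw [e2]
      nlinarith
    calc o n s ≤ _ := h5
      _ ≤ (1 + 2 * ε) * (e * Real.log n + δ / 4 * Real.log n) := by gcongr
      _ ≤ _ := h6

/-- the total stopping time and the number of the odd terms -/
lemma up_odd {Q : ℕ → ℕ → Prop} {o : ℕ → ℕ → ℝ}
    (h : ∀ n s, Q n s → 2 ≤ n → Real.log n + o n s * Real.log 3 ≤ s * Real.log 2 ∧ ∀ Y : ℕ, 0 < Y →
      s * Real.log 2 ≤ Real.log n + o n s * Real.log 3 + (2 * Y + 1) + o n s / (3 * Y)) (γ : ℝ) :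
    Up Q (fun _ s => s) γ ↔ Up Q o ((γ * Real.log 2 - 1) / Real.log 3) := by
  have hl2 : 0 < Real.log 2 := Real.log_pos (by norm_num)
  have hl3 : 0 < Real.log 3 := Real.log_pos (by norm_num)
  constructor
  · intro H δ hδ
    obtain ⟨N, hN⟩ := H (δ * Real.log 3 / Real.log 2) (by positivity)
    refine ⟨max N 2, fun n s hn hq => ?_⟩
    have h1 := hN n s ((le_max_left _ _).trans hn) hq
    obtain ⟨h2, -⟩ := h n s hq ((le_max_right _ _).trans hn)
    have h3 : (s : ℝ) * Real.log 2 ≤ (γ * Real.log 2 + δ * Real.log 3) * Real.log n := by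
      calc (s : ℝ) * Real.log 2 ≤ (γ + δ * Real.log 3 / Real.log 2) * Real.log n * Real.log 2 := by gcongr
        _ = _ := by field_simp
    have h4 : o n s * Real.log 3 ≤ ((γ * Real.log 2 - 1) / Real.log 3 + δ) * Real.log n * Real.log 3 := by
      have : ((γ * Real.log 2 - 1) / Real.log 3 + δ) * Real.log n * Real.log 3 =
          (γ * Real.log 2 + δ * Real.log 3) * Real.log n - Real.log n := by field_simp; ring
      rw [this]; linarith
    exact le_of_mul_le_mul_right h4 hl3
  · intro H δ hδ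
    set a : ℝ := (γ * Real.log 2 - 1) / Real.log 3 with ha
    have hγ : γ * Real.log 2 = 1 + a * Real.log 3 := by rw [ha]; field_simp; ring
    set δ' : ℝ := δ * Real.log 2 / (4 * Real.log 3) with hδ'
    have hδ'0 : 0 < δ' := by positivity
    obtain ⟨N, hN⟩ := H δ' hδ'0
    obtain ⟨Y, hY⟩ := exists_nat_gt (4 * (|a + δ'| + 1) / (3 * δ * Real.log 2))
    have hY0R : (0 : ℝ) < Y := lt_trans (by positivity) hY
    have hY0 : 0 < Y := by exact_mod_cast hY0R
    obtain ⟨N', hN'⟩ := log_large (max 1 ((2 * Y + 1) / (δ * Real.log 2 / 4)))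
    refine ⟨max (max N N') 2, fun n s hn hq => ?_⟩
    have hn2 : 2 ≤ n := (le_max_right _ _).trans hn
    have h1 := hN n s ((le_max_left _ _).trans ((le_max_left _ _).trans hn)) hq
    have h2 := hN' n ((le_max_right _ _).trans ((le_max_left _ _).trans hn))
    have hL1 : 1 ≤ Real.log n := (le_max_left _ _).trans h2
    have hL0 : 0 < Real.log n := by linarith
    have hLY : (2 * Y + 1 : ℝ) ≤ δ * Real.log 2 / 4 * Real.log n := by
      have := (le_max_right _ _).trans h2
      rw [div_le_iff₀ (by positivity)] at this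
      linarith
    obtain ⟨-, h3⟩ := h n s hq hn2
    have h4 := h3 Y hY0
    have h5 : o n s / (3 * Y) ≤ δ * Real.log 2 / 4 * Real.log n := by
      have h6 : o n s ≤ |a + δ'| * Real.log n := h1.trans (by gcongr; exact le_abs_self _)
      have h7 : |a + δ'| ≤ 3 * Y * (δ * Real.log 2 / 4) := by
        have := (div_lt_iff₀ (by positivity)).1 hY
        linarith
      rw [div_le_iff₀ (by positivity)]
      calc o n s ≤ |a + δ'| * Real.log n := h6
        _ ≤ 3 * Y * (δ * Real.log 2 / 4) * Real.log n := by gcongr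
        _ = _ := by ring
    have h6 : o n s * Real.log 3 ≤ a * Real.log 3 * Real.log n + δ * Real.log 2 / 4 * Real.log n := by
      calc o n s * Real.log 3 ≤ (a + δ') * Real.log n * Real.log 3 := by gcongr
        _ = _ := by rw [hδ']; field_simp
    have h7 : (s : ℝ) * Real.log 2 ≤ (γ + δ) * Real.log n * Real.log 2 := by
      have : (γ + δ) * Real.log n * Real.log 2 = (γ * Real.log 2) * Real.log n + δ * Real.log 2 * Real.log n := by
        ring
      rw [this, hγ]
      nlinarith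
    exact le_of_mul_le_mul_right h7 hl2

end Pool.Agent.V5helper76.FD
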