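import Mathlib

/-!
# The fractions `2 ^ a / 3 ^ o` in finitely many cosets of a group
-/

set_option autoImplicit false

namespace Pool.Agent.V5helper76.FD

/-- two such fractions in one coset -/
lemma quot_mem {Γ : Subgroup ℚˣ} {κ : ℚ} {a o a' o' : ℕ} (ha : a ≤ a') (ho : o ≤ o')
    {g g' : ℚˣ} (hg : g ∈ Γ) (hg' : g' ∈ Γ) (h : (2 : ℚ) ^ a * (g : ℚ) = 3 ^ o * κ)
    (h' : (2 : ℚ) ^ a' * (g' : ℚ) = 3 ^ o' * κ) :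
    ∃ u ∈ Γ, (u : ℚ) * 3 ^ (o' - o) = 2 ^ (a' - a) := by
  refine ⟨g * g'⁻¹, mul_mem hg (inv_mem hg'), ?_⟩
  have hg0 : (g' : ℚ) ≠ 0 := g'.ne_zero
  have e1 : (2 : ℚ) ^ a' = 2 ^ a * 2 ^ (a' - a) := by rw [← pow_add]; congr 1; omega
  have e2 : (3 : ℚ) ^ o' = 3 ^ o * 3 ^ (o' - o) := by rw [← pow_add]; congr 1; omega
  rw [e1, e2] at h'
  rw [Units.val_mul, Units.val_inv_eq_inv_val]
  field_simp
  have h2 : (2 : ℚ) ^ a ≠ 0 := by positivity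
  apply mul_left_cancel₀ h2
  linear_combination 3 ^ (o' - o) * h - h'

theorem bound_a {Γ : Subgroup ℚˣ} (KK : Finset ℚ)
    (h : ∀ i j : ℕ, j ≤ i → 1 ≤ i → ∀ u ∈ Γ, (u : ℚ) * 3 ^ j ≠ 2 ^ i) :
    ∃ A : ℕ, ∀ a o : ℕ, o ≤ a → (∃ κ ∈ KK, ∃ g ∈ Γ, (2 : ℚ) ^ a * (g : ℚ) = 3 ^ o * κ) → a ≤ A := by
  have hfin : ∀ κ : ℚ, {q : ℕ × ℕ | ∃ g ∈ Γ, (2 : ℚ) ^ (q.1 + q.2) * ((g : ℚˣ) : ℚ) = 3 ^ q.2 * κ}.Finite := by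
    intro κ
    apply WellQuasiOrderedLE.finite_of_isAntichain
    rintro ⟨d, o⟩ ⟨g, hg, h1⟩ ⟨d', o'⟩ ⟨g', hg', h1'⟩ hne hle
    rw [Prod.mk_le_mk] at hle
    dsimp only at h1 h1'
    obtain ⟨u, hu, h2⟩ := quot_mem (by omega) hle.2 hg hg' h1 h1'
    refine h (d' + o' - (d + o)) (o' - o) (by omega) ?_ u hu h2
    by_contra hcc
    apply hne
    have h3 := hle.1
    have h4 := hle.2
    rw [Prod.mk.injEq]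
    omega
  have hfin2 : (⋃ κ ∈ KK, (fun q : ℕ × ℕ => q.1 + q.2) ''
      {q : ℕ × ℕ | ∃ g ∈ Γ, (2 : ℚ) ^ (q.1 + q.2) * ((g : ℚˣ) : ℚ) = 3 ^ q.2 * κ}).Finite :=
    Set.Finite.biUnion KK.finite_toSet fun κ _ => (hfin κ).image _
  obtain ⟨A, hA⟩ := hfin2.bddAbove
  refine ⟨A, fun a o hoa ⟨κ, hκ, g, hg, hgk⟩ => hA ?_⟩
  simp only [Set.mem_iUnion, Set.mem_image, Set.mem_ofPred_eq]
  refine ⟨κ, hκ, (a - o, o), ⟨g, hg, ?_⟩, by dsimp only; omega⟩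
  dsimp only
  rw [Nat.sub_add_cancel hoa]
  exact hgk

theorem bound_o {Γ : Subgroup ℚˣ} (KK : Finset ℚ)
    (h : ∀ i j : ℕ, 1 ≤ j → j ≤ i → ∀ u ∈ Γ, (u : ℚ) * 3 ^ j ≠ 2 ^ i) :
    ∃ A : ℕ, ∀ a o : ℕ, o ≤ a → (∃ κ ∈ KK, ∃ g ∈ Γ, (2 : ℚ) ^ a * (g : ℚ) = 3 ^ o * κ) → o ≤ A := by
  classical
  have hfin : ∀ κ : ℚ, {o : ℕ | ∃ d : ℕ, ∃ g ∈ Γ, (2 : ℚ) ^ (d + o) * ((g : ℚˣ) : ℚ) = 3 ^ o * κ}.Finite := by
    intro κ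
    set O := {o : ℕ | ∃ d : ℕ, ∃ g ∈ Γ, (2 : ℚ) ^ (d + o) * ((g : ℚˣ) : ℚ) = 3 ^ o * κ} with hO
    have hch : ∀ o : ℕ, ∃ d : ℕ, o ∈ O → ∃ g ∈ Γ, (2 : ℚ) ^ (d + o) * ((g : ℚˣ) : ℚ) = 3 ^ o * κ := by
      intro o
      by_cases ho : o ∈ O
      · obtain ⟨d, hd⟩ := ho
        exact ⟨d, fun _ => hd⟩
      · exact ⟨0, fun h => absurd h ho⟩
    choose d hd using hch
    have h1 : ((fun o => (d o, o)) '' O).Finite := by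
      apply WellQuasiOrderedLE.finite_of_isAntichain
      rintro _ ⟨o, ho, rfl⟩ _ ⟨o', ho', rfl⟩ hne hle
      rw [Prod.mk_le_mk] at hle
      obtain ⟨g, hg, h1⟩ := hd o ho
      obtain ⟨g', hg', h1'⟩ := hd o' ho'
      obtain ⟨u, hu, h2⟩ := quot_mem (by omega) hle.2 hg hg' h1 h1'
      have hlt : o < o' := by
        rcases Nat.lt_or_ge o o' with h | h
        · exact h
        · exfalso
          apply hne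
          have : o = o' := le_antisymm hle.2 h
          rw [this]
      exact h (d o' + o' - (d o + o)) (o' - o) (by omega) (by omega) u hu h2
    refine (h1.image Prod.snd).subset ?_
    intro o ho
    exact ⟨(d o, o), ⟨o, ho, rfl⟩, rfl⟩
  have hfin2 : (⋃ κ ∈ KK, {o : ℕ | ∃ d : ℕ, ∃ g ∈ Γ, (2 : ℚ) ^ (d + o) * ((g : ℚˣ) : ℚ) = 3 ^ o * κ}).Finite :=
    Set.Finite.biUnion KK.finite_toSet fun κ _ => hfin κ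
  obtain ⟨A, hA⟩ := hfin2.bddAbove
  refine ⟨A, fun a o hoa ⟨κ, hκ, g, hg, hgk⟩ => hA ?_⟩
  simp only [Set.mem_iUnion, Set.mem_ofPred_eq]
  refine ⟨κ, hκ, a - o, g, hg, ?_⟩
  rw [Nat.sub_add_cancel hoa]
  exact hgk

end Pool.Agent.V5helper76.FD
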