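import Pool.Agent.V5helper76.FD.Pair
import Pool.Agent.V5helper76.FD.Anti

/-!
# The number of the terms of a trajectory which are sums of few units
-/

set_option autoImplicit false

namespace Pool.Agent.V5helper76.FD

open Finset Pool.Agent.V5helper5.SQ Pool.Agent.N449.SP

lemma cnt (R Bd : Finset ℕ) {N m A : ℕ} (hm : 0 < m) (hR : ∀ s ∈ R, s < N)
    (h : ∀ s ∈ R, ∀ t ∈ R, s < t → s / m = t / m → (∀ b ∈ Bd, b / m ≠ s / m) → t ≤ s + A) :
    R.card ≤ (A + 1) * (N / m + 1) + m * Bd.card := by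
  classical
  have h1 : R.card = (R.filter fun s => ∀ b ∈ Bd, b / m ≠ s / m).card +
      (R.filter fun s => ¬ ∀ b ∈ Bd, b / m ≠ s / m).card :=
    (Finset.card_filter_add_card_filter_not _).symm
  rw [h1]
  refine Nat.add_le_add ?_ ?_
  · set R1 := R.filter fun s => ∀ b ∈ Bd, b / m ≠ s / m with hR1
    refine (Finset.card_le_mul_card_image (f := fun s => s / m) R1 (A + 1) ?_).trans ?_
    · intro c hc
      set F := R1.filter fun s => s / m = c with hF
      rcases F.eq_empty_or_nonempty with he | hne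
      · rw [he]; simp
      · have hmn := F.min'_mem hne
        set s0 := F.min' hne with hs0
        have hsub : F ⊆ Icc s0 (s0 + A) := by
          intro t ht
          rw [mem_Icc]
          have hle : s0 ≤ t := F.min'_le t ht
          refine ⟨hle, ?_⟩
          rcases hle.eq_or_lt with he | hlt
          · omega
          · rw [hF, mem_filter, hR1, mem_filter] at ht hmn
            exact h s0 hmn.1.1 t ht.1.1 hlt (by rw [hmn.2, ht.2]) hmn.1.2
        refine (Finset.card_le_card hsub).trans ?_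
        rw [Nat.card_Icc]; omega
    · refine Nat.mul_le_mul_left _ ?_
      have : R1.image (fun s => s / m) ⊆ range (N / m + 1) := by
        intro c hc
        rw [mem_image] at hc
        obtain ⟨s, hs, rfl⟩ := hc
        rw [hR1, mem_filter] at hs
        rw [mem_range]
        exact Nat.lt_succ_of_le (Nat.div_le_div_right (hR s hs.1).le)
      exact (Finset.card_le_card this).trans (by rw [card_range])
  · set R2 := R.filter fun s => ¬ ∀ b ∈ Bd, b / m ≠ s / m with hR2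
    refine (Finset.card_le_mul_card_image (f := fun s => s / m) R2 m ?_).trans ?_
    · intro c hc
      have hsub : (R2.filter fun s => s / m = c) ⊆ Ico (c * m) (c * m + m) := by
        intro t ht
        rw [mem_filter] at ht
        rw [mem_Ico]
        have h2 := Nat.div_add_mod t m
        have h3 := Nat.mod_lt t hm
        rw [ht.2] at h2
        rw [mul_comm c m]
        omega
      refine (Finset.card_le_card hsub).trans ?_
      rw [Nat.card_Ico]; omega
    · refine Nat.mul_le_mul_left _ ?_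
      have : R2.image (fun s => s / m) ⊆ Bd.image (fun s => s / m) := by
        intro c hc
        rw [mem_image] at hc
        obtain ⟨s, hs, rfl⟩ := hc
        rw [hR2, mem_filter] at hs
        have h2 := hs.2
        push Not at h2
        obtain ⟨b, hb, hbs⟩ := h2
        exact mem_image.2 ⟨b, hb, hbs⟩
      exact (Finset.card_le_card this).trans Finset.card_image_le

/-- the small terms -/
lemma small_card {x : ℤ} {n : ℕ} (hinj : Set.InjOn (fun t => T^[t] x) (Set.Iio n)) (X : ℕ) :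
    ((range n).filter fun t => |T^[t] x| ≤ (X : ℤ)).card ≤ 2 * X + 1 := by
  classical
  have h1 : ((range n).filter fun t => |T^[t] x| ≤ (X : ℤ)).card ≤ (Finset.Icc (-(X : ℤ)) X).card := by
    refine Finset.card_le_card_of_injOn (fun t => T^[t] x) ?_ ?_
    · intro t ht
      have ht' := (mem_filter.1 ht).2
      rw [abs_le] at ht'
      exact mem_Icc.2 ht'
    · intro s hs t ht hst
      have hs' := (mem_filter.1 hs).1
      have ht' := (mem_filter.1 ht).1
      exact hinj (mem_range.1 hs') (mem_range.1 ht') hst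
  refine h1.trans ?_
  rw [Int.card_Icc]
  omega

lemma eps_m {ε : ℝ} (hε : 0 < ε) (A : ℕ) : ∃ m : ℕ, 0 < m ∧ ((A + 1 : ℕ) : ℝ) ≤ ε * m := by
  obtain ⟨m, hm⟩ := exists_nat_gt (((A + 1 : ℕ) : ℝ) / ε)
  have h1 : (0 : ℝ) < ((A + 1 : ℕ) : ℝ) / ε := by positivity
  refine ⟨m, ?_, ?_⟩
  · have : (0 : ℝ) < m := h1.trans hm
    exact_mod_cast this
  · have := (div_lt_iff₀ hε).1 hm
    linarith

lemma eps_fin {ε : ℝ} {A m : ℕ} (hm : 0 < m) (h : ((A + 1 : ℕ) : ℝ) ≤ ε * m) {c N D : ℕ}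
    (hc : c ≤ (A + 1) * (N / m + 1) + D) : (c : ℝ) ≤ ε * N + ((A + 1 : ℕ) + D : ℝ) := by
  have hmr : (0 : ℝ) < m := by exact_mod_cast hm
  have h1 : ((N / m : ℕ) : ℝ) ≤ N / m := Nat.cast_div_le
  have h2 : (c : ℝ) ≤ ((A + 1 : ℕ) : ℝ) * ((N / m : ℕ) + 1) + D := by exact_mod_cast hc
  have h3 : ((A + 1 : ℕ) : ℝ) * ((N / m : ℕ) : ℝ) ≤ ε * N := by
    calc ((A + 1 : ℕ) : ℝ) * ((N / m : ℕ) : ℝ) ≤ (ε * m) * (N / m) := by
          refine mul_le_mul h h1 (by positivity) ?_
          exact le_trans (by positivity) h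
      _ = ε * N := by field_simp
  linarith

theorem countA {Γ : Subgroup ℚˣ} (hΓ : Γ.FG) (C : Finset ℚ) (k : ℕ)
    (h : ∀ i j : ℕ, j ≤ i → 1 ≤ i → ∀ u ∈ Γ, (u : ℚ) * 3 ^ j ≠ 2 ^ i) {ε : ℝ} (hε : 0 < ε) :
    ∃ K : ℝ, ∀ (x : ℤ) (n : ℕ), Set.InjOn (fun t => T^[t] x) (Set.Iio n) → ∀ S ⊆ range n,
      (∀ t ∈ S, Sp (UU Γ C) k ((T^[t] x : ℤ) : ℚ)) → (S.card : ℝ) ≤ ε * n + K := by
  classical
  obtain ⟨KK, -, hpair⟩ := pair hΓ C k
  obtain ⟨A, hA⟩ := bound_a KK h
  obtain ⟨m, hm0, hm⟩ := eps_m hε A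
  obtain ⟨M, hM0, hM⟩ := hpair m
  obtain ⟨X, hX⟩ := exists_nat_gt (2 ^ m * M)
  refine ⟨((A + 1 : ℕ) + (m * (2 * X + 1) : ℕ) : ℝ), fun x n hinj S hS hSp => ?_⟩
  apply eps_fin hm0 hm
  refine (cnt S ((range n).filter fun t => |T^[t] x| ≤ (X : ℤ)) (A := A) hm0 (fun s hs => mem_range.1 (hS hs))
    ?_).trans (Nat.add_le_add_left (Nat.mul_le_mul_left _ (small_card hinj X)) _)
  intro s hs t ht hst hdiv hbad
  have hlt : t < s + m := by
    have h1 := Nat.div_add_mod t m
    have h2 := Nat.div_add_mod s m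
    have h3 := Nat.mod_lt t hm0
    rw [hdiv] at h2
    omega
  have hbig : (X : ℤ) < |T^[s] x| := by
    by_contra hcc
    push Not at hcc
    exact hbad s (mem_filter.2 ⟨hS hs, hcc⟩) rfl
  have hX0 : (0 : ℚ) < X := lt_trans (by positivity) hX
  have hbigQ : (X : ℚ) < |((T^[s] x : ℤ) : ℚ)| := by
    have : ((X : ℤ) : ℚ) < ((|T^[s] x| : ℤ) : ℚ) := by exact_mod_cast hbig
    push_cast at this
    exact this
  have hy0 : T^[s] x ≠ 0 := by
    intro h0
    rw [h0, abs_zero] at hbig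
    exact absurd hbig (by omega)
  have hit : T^[t - s] (T^[s] x) = T^[t] x := by
    rw [← Function.iterate_add_apply]; congr 1; omega
  obtain ⟨κ, hκ, g, hg, hgk⟩ := hM (T^[s] x) (t - s) hy0 (hSp s hs) (by rw [hit]; exact hSp t ht)
    ((od_le _ _).trans (by omega)) (by
    intro p hp ho
    set o := od (t - s) (T^[s] x)
    have h1 : (3 : ℚ) ^ (o - 1 - od p (T^[s] x)) ≤ 3 ^ o := pow_le_pow_right₀ (by norm_num) (by omega)
    have h2 : (2 : ℚ) ^ p ≤ 2 ^ m := pow_le_pow_right₀ (by norm_num) (by omega)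
    calc (3 : ℚ) ^ (o - 1 - od p (T^[s] x)) * 2 ^ p * M ≤ 3 ^ o * 2 ^ m * M := by gcongr
      _ = 3 ^ o * (2 ^ m * M) := by ring
      _ < 3 ^ o * |((T^[s] x : ℤ) : ℚ)| := by
        apply mul_lt_mul_of_pos_left (hX.trans hbigQ) (by positivity))
  have := hA (t - s) (od (t - s) (T^[s] x)) (od_le _ _) ⟨κ, hκ, g, hg, hgk⟩
  omega

lemma abs_odd_le (z : ℤ) : 2 * |T z| ≤ 4 * |z| := by
  have := abs_T_le z
  linarith

/-- the growth of the terms -/
lemma grow (y : ℤ) (p : ℕ) : (2 : ℤ) ^ p * |T^[p] y| ≤ 4 ^ od p y * |y| := by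
  induction p with
  | zero => simp [od]
  | succ p ih =>
    rw [Function.iterate_succ_apply', od]
    have h2 := two_T (T^[p] y)
    split_ifs at h2 ⊢ with h
    · rw [add_zero]
      calc (2 : ℤ) ^ (p + 1) * |T (T^[p] y)| = 2 ^ p * |2 * T (T^[p] y)| := by
            rw [abs_mul, abs_two]; ring
        _ = 2 ^ p * |T^[p] y| := by rw [h2]
        _ ≤ _ := ih
    · have h3 := abs_odd_le (T^[p] y)
      calc (2 : ℤ) ^ (p + 1) * |T (T^[p] y)| = 2 ^ p * (2 * |T (T^[p] y)|) := by ring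
        _ ≤ 2 ^ p * (4 * |T^[p] y|) := by gcongr
        _ = 4 * (2 ^ p * |T^[p] y|) := by ring
        _ ≤ 4 * (4 ^ od p y * |y|) := by linarith
        _ = _ := by ring

theorem countB {Γ : Subgroup ℚˣ} (hΓ : Γ.FG) (C : Finset ℚ) (k : ℕ)
    (h : ∀ i j : ℕ, 1 ≤ j → j ≤ i → ∀ u ∈ Γ, (u : ℚ) * 3 ^ j ≠ 2 ^ i) {ε : ℝ} (hε : 0 < ε) :
    ∃ K : ℝ, ∀ (x : ℤ) (n : ℕ), Set.InjOn (fun t => T^[t] x) (Set.Iio n) → ∀ S ⊆ range n,
      (∀ t ∈ S, T^[t] x % 2 ≠ 0 ∧ Sp (UU Γ C) k ((T^[t] x : ℤ) : ℚ)) → (S.card : ℝ) ≤ ε * od n x + K := by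
  classical
  obtain ⟨KK, -, hpair⟩ := pair hΓ C k
  obtain ⟨A, hA⟩ := bound_o KK h
  obtain ⟨m, hm0, hm⟩ := eps_m hε A
  obtain ⟨M, hM0, hM⟩ := hpair m
  obtain ⟨X, hX⟩ := exists_nat_gt (2 ^ m * M)
  refine ⟨((A + 1 : ℕ) + (m * (2 * X + 1) : ℕ) : ℝ), fun x n hinj S hS hSp => ?_⟩
  apply eps_fin hm0 hm
  -- the ranks of the odd terms
  have hrk : ∀ {s t : ℕ}, s < t → T^[s] x % 2 ≠ 0 → od s x < od t x := fun {s t} hst hs => od_succ_le x hst hs
  have hinjS : Set.InjOn (fun t => od t x) (S : Set ℕ) := by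
    intro s hs t ht hst
    dsimp only at hst
    rcases lt_trichotomy s t with h1 | h1 | h1
    · have := hrk h1 (hSp s hs).1; omega
    · exact h1
    · have := hrk h1 (hSp t ht).1; omega
  set Sm := (range n).filter fun t => |T^[t] x| ≤ (X : ℤ) with hSm
  rw [← Finset.card_image_of_injOn hinjS]
  refine (cnt (S.image fun t => od t x) (Sm.image fun t => od t x) (N := od n x) (A := A) hm0 ?_
    ?_).trans (Nat.add_le_add_left (Nat.mul_le_mul_left _ (Finset.card_image_le.trans (small_card hinj X))) _)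
  · intro r hr
    rw [mem_image] at hr
    obtain ⟨s, hs, rfl⟩ := hr
    exact hrk (mem_range.1 (hS hs)) (hSp s hs).1
  intro r hr r' hr' hrr hdiv hbad
  rw [mem_image] at hr hr'
  obtain ⟨s, hs, rfl⟩ := hr
  obtain ⟨t, ht, rfl⟩ := hr'
  have hst : s < t := by
    by_contra hcc
    push Not at hcc
    have := od_mono x hcc
    omega
  have hlt : od t x < od s x + m := by
    have h1 := Nat.div_add_mod (od t x) m
    have h2 := Nat.div_add_mod (od s x) m
    have h3 := Nat.mod_lt (od t x) hm0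
    rw [hdiv] at h2
    omega
  have htn : t < n := mem_range.1 (hS ht)
  -- all terms between are large
  have hbig : ∀ u, s ≤ u → u < t → (X : ℤ) < |T^[u] x| := by
    intro u hsu hut
    by_contra hcc
    push Not at hcc
    refine hbad (od u x) (mem_image.2 ⟨u, mem_filter.2 ⟨mem_range.2 (by omega), hcc⟩, rfl⟩) ?_
    have h1 : od s x ≤ od u x := od_mono x hsu
    have h2 : od u x ≤ od t x := od_mono x hut.le
    have h3 := Nat.div_le_div_right (c := m) h1
    have h4 := Nat.div_le_div_right (c := m) h2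
    omega
  have hX0 : (0 : ℚ) < X := lt_trans (by positivity) hX
  set y := T^[s] x with hy
  have hbigs := hbig s le_rfl hst
  have hy0 : y ≠ 0 := by
    intro h0
    rw [← hy, h0, abs_zero] at hbigs
    exact absurd hbigs (by omega)
  have hit : T^[t - s] y = T^[t] x := by
    rw [hy, ← Function.iterate_add_apply]; congr 1; omega
  have hod : od t x = od s x + od (t - s) y := by
    rw [hy, ← od_add]; congr 1; omega
  obtain ⟨κ, hκ, g, hg, hgk⟩ := hM y (t - s) hy0 (hSp s hs).2 (by rw [hit]; exact (hSp t ht).2)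
    (by omega) (by
    intro p hp ho
    have h1 := hbig (s + p) (by omega) (by omega)
    have h2 : T^[s + p] x = T^[p] y := by
      rw [hy, ← Function.iterate_add_apply]; congr 1; omega
    rw [h2] at h1
    have h3 := grow y p
    have h4 := od_succ_le y hp ho
    set o := od (t - s) y
    set j := od p y
    have hjm : j ≤ m := by omega
    have h5 : (2 : ℚ) ^ p * X < 3 ^ j * 2 ^ m * |(y : ℚ)| := by
      have h6 : (2 : ℤ) ^ p * X < 4 ^ j * |y| := lt_of_lt_of_le (by gcongr) h3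
      have h7 : (2 : ℚ) ^ p * X < 4 ^ j * |(y : ℚ)| := by exact_mod_cast h6
      have h8 : (4 : ℚ) ^ j ≤ 3 ^ j * 2 ^ m := by
        calc (4 : ℚ) ^ j = 2 ^ j * 2 ^ j := by rw [← mul_pow]; norm_num
          _ ≤ 3 ^ j * 2 ^ m := by
            apply mul_le_mul
            · exact pow_le_pow_left₀ (by norm_num) (by norm_num) j
            · exact pow_le_pow_right₀ (by norm_num) hjm
            · positivity
            · positivity
      refine h7.trans_le ?_
      gcongr
    have h9 : (2 : ℚ) ^ p * M < 3 ^ j * |(y : ℚ)| := by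
      have h10 : (2 : ℚ) ^ m * (2 ^ p * M) < 2 ^ m * (3 ^ j * |(y : ℚ)|) := by
        calc (2 : ℚ) ^ m * (2 ^ p * M) = 2 ^ p * (2 ^ m * M) := by ring
          _ ≤ 2 ^ p * X := by gcongr
          _ < 3 ^ j * 2 ^ m * |(y : ℚ)| := h5
          _ = _ := by ring
      exact lt_of_mul_lt_mul_left h10 (by positivity)
    have h11 : (3 : ℚ) ^ o = 3 ^ (o - 1 - j) * 3 * 3 ^ j := by
      rw [← pow_succ, ← pow_add]; congr 1; omega
    rw [h11]
    have h12 : (0 : ℚ) < 3 ^ (o - 1 - j) := by positivity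
    have h13 : (0 : ℚ) < 3 ^ j * |(y : ℚ)| := lt_of_le_of_lt (by positivity) h9
    calc (3 : ℚ) ^ (o - 1 - j) * 2 ^ p * M = 3 ^ (o - 1 - j) * (2 ^ p * M) := by ring
      _ < 3 ^ (o - 1 - j) * (3 ^ j * |(y : ℚ)|) := by gcongr
      _ ≤ 3 ^ (o - 1 - j) * (3 * (3 ^ j * |(y : ℚ)|)) := by
        apply mul_le_mul_of_nonneg_left _ h12.le
        linarith
      _ = _ := by ring)
  have h1 := hA (t - s) (od (t - s) y) (od_le _ _) ⟨κ, hκ, g, hg, hgk⟩
  omega

end Pool.Agent.V5helper76.FD
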