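import Pool.Agent.V5helper76.FD.Count

/-!
# Blocks of digits, groups generated by primes, examples
-/

set_option autoImplicit false

namespace Pool.Agent.V5helper76.FD

open Finset Pool.Agent.V5helper5.SQ Pool.Agent.N449.SP

lemma sp_zero (U : Set ℚ) (k : ℕ) : Sp U k 0 := ⟨fun _ => 0, fun _ => Or.inl rfl, by simp⟩

lemma sp_mono {U : Set ℚ} {k l : ℕ} (h : k ≤ l) {x : ℚ} (hx : Sp U k x) : Sp U l x := by
  have h1 := hx.add (sp_zero U (l - k))
  rw [add_zero] at h1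
  have : k + (l - k) = l := by omega
  rwa [this] at h1

lemma sp_one {U : Set ℚ} {x : ℚ} (hx : x = 0 ∨ x ∈ U) : Sp U 1 x := ⟨fun _ => x, fun _ => hx, by simp⟩

lemma sp_sum {U : Set ℚ} {ι : Type*} [DecidableEq ι] (F : Finset ι) (f : ι → ℚ)
    (h : ∀ i ∈ F, f i = 0 ∨ f i ∈ U) : Sp U F.card (∑ i ∈ F, f i) := by
  induction F using Finset.induction_on with
  | empty => simpa using sp_zero U 0
  | insert a F ha ih =>
    rw [Finset.sum_insert ha, Finset.card_insert_of_notMem ha, add_comm F.card 1]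
    exact (sp_one (h a (mem_insert_self _ _))).add (ih fun i hi => h i (mem_insert_of_mem hi))

/-- the number of the blocks of equal digits in base `b` -/
def blocks (b n : ℕ) : ℕ := ((range n).filter fun i => n / b ^ i % b ≠ n / b ^ (i + 1) % b).card

lemma digits_sum (b n L : ℕ) : ∑ i ∈ range L, (n / b ^ i % b) * b ^ i = n % b ^ L := by
  induction L with
  | zero => simp [Nat.mod_one]
  | succ L ih => rw [Finset.sum_range_succ, ih, Nat.mod_pow_succ]; ring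

/-- summation by parts -/
lemma abel (b : ℚ) (d : ℕ → ℚ) (L : ℕ) : (b - 1) * ∑ i ∈ range L, d i * b ^ i =
    -d 0 + ∑ i ∈ range L, (d i - d (i + 1)) * b ^ (i + 1) + d L * b ^ L := by
  induction L with
  | zero => simp
  | succ L ih => rw [Finset.sum_range_succ, Finset.sum_range_succ, mul_add, ih]; ring

/-- the coefficients -/
noncomputable def Cb (b : ℕ) : Finset ℚ := (Finset.Icc (-(b : ℤ)) b).image fun c : ℤ => (c : ℚ) / (b - 1)

lemma sp_blocks {b : ℕ} (hb : 2 ≤ b) (bu : ℚˣ) (hbu : (bu : ℚ) = b) (n : ℕ) :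
    Sp (UU (Subgroup.zpowers bu) (Cb b)) (blocks b n + 1) (n : ℚ) := by
  have hb1 : (b : ℚ) - 1 ≠ 0 := by
    have : (2 : ℚ) ≤ b := by exact_mod_cast hb
    linarith
  set d : ℕ → ℚ := fun i => ((n / b ^ i % b : ℕ) : ℚ) with hd
  have h1 : ((∑ i ∈ range n, (n / b ^ i % b) * b ^ i : ℕ) : ℚ) = n := by
    rw [digits_sum, Nat.mod_eq_of_lt]
    exact Nat.lt_pow_self (by omega)
  have h2 : ∑ i ∈ range n, d i * (b : ℚ) ^ i = n := by
    rw [← h1]; push_cast; rfl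
  have h3 := abel b d n
  have hdn : d n = 0 := by
    rw [hd]
    simp only
    rw [Nat.div_eq_of_lt (Nat.lt_pow_self (by omega)), Nat.zero_mod, Nat.cast_zero]
  rw [h2, hdn, zero_mul, add_zero] at h3
  have h4 : (n : ℚ) = -d 0 / (b - 1) + ∑ i ∈ (range n).filter (fun i => n / b ^ i % b ≠ n / b ^ (i + 1) % b),
      (d i - d (i + 1)) / (b - 1) * (b : ℚ) ^ (i + 1) := by
    have h5 : ∑ i ∈ (range n).filter (fun i => n / b ^ i % b ≠ n / b ^ (i + 1) % b),
        (d i - d (i + 1)) / (b - 1) * (b : ℚ) ^ (i + 1) =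
        ∑ i ∈ range n, (d i - d (i + 1)) / (b - 1) * (b : ℚ) ^ (i + 1) := by
      apply Finset.sum_filter_of_ne
      intro i _ hne hcc
      apply hne
      rw [hd]
      simp only
      rw [hcc, sub_self, zero_div, zero_mul]
    rw [h5]
    have h6 : ∑ i ∈ range n, (d i - d (i + 1)) / (b - 1) * (b : ℚ) ^ (i + 1) =
        (∑ i ∈ range n, (d i - d (i + 1)) * (b : ℚ) ^ (i + 1)) / (b - 1) := by
      rw [Finset.sum_div]
      exact Finset.sum_congr rfl fun i _ => by ring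
    rw [h6, ← add_div, ← h3, mul_div_cancel_left₀ _ hb1]
  have hcoef : ∀ c : ℤ, -(b : ℤ) ≤ c → c ≤ b → ∀ i : ℕ,
      (c : ℚ) / (b - 1) * (b : ℚ) ^ i ∈ UU (Subgroup.zpowers bu) (Cb b) := by
    intro c h7 h8 i
    refine ⟨(c : ℚ) / (b - 1), mem_image.2 ⟨c, mem_Icc.2 ⟨h7, h8⟩, rfl⟩, bu ^ i,
      Subgroup.npow_mem_zpowers bu i, ?_⟩
    rw [Units.val_pow_eq_pow_val, hbu]
  have hmod : ∀ i, n / b ^ i % b < b := fun i => Nat.mod_lt _ (by omega)
  rw [h4, add_comm (blocks b n) 1]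
  refine Sp.add (sp_one (Or.inr ?_)) (sp_sum _ _ fun i _ => Or.inr ?_)
  · have h7 := hcoef (-((n / b ^ 0 % b : ℕ) : ℤ)) (by have := hmod 0; omega) (by omega) 0
    convert h7 using 1
    rw [Int.cast_neg, Int.cast_natCast]
    simp only [pow_zero, mul_one, hd]
  · have h7 := hcoef (((n / b ^ i % b : ℕ) : ℤ) - ((n / b ^ (i + 1) % b : ℕ) : ℤ))
      (by have := hmod (i + 1); omega) (by have := hmod i; omega) (i + 1)
    convert h7 using 3
    push_cast
    rfl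

lemma uu_neg {Γ : Subgroup ℚˣ} {C : Finset ℚ} (hC : ∀ c ∈ C, -c ∈ C) {k : ℕ} {x : ℚ}
    (hx : Sp (UU Γ C) k x) : Sp (UU Γ C) k (-x) := by
  obtain ⟨s, hs, rfl⟩ := hx
  refine ⟨fun i => -s i, fun i => ?_, by rw [Finset.sum_neg_distrib]⟩
  rcases hs i with h | ⟨c, hc, u, hu, h⟩
  · exact Or.inl (by simp only [h, neg_zero])
  · exact Or.inr ⟨-c, hC c hc, u, hu, by simp only [h]; ring⟩

lemma cb_neg (b : ℕ) : ∀ c ∈ Cb b, -c ∈ Cb b := by
  intro c hc
  rw [Cb, mem_image] at hc ⊢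
  obtain ⟨a, ha, rfl⟩ := hc
  rw [mem_Icc] at ha
  exact ⟨-a, mem_Icc.2 ⟨by omega, by omega⟩, by push_cast; ring⟩

lemma sp_blocks_int {b : ℕ} (hb : 2 ≤ b) (bu : ℚˣ) (hbu : (bu : ℚ) = b) (x : ℤ) :
    Sp (UU (Subgroup.zpowers bu) (Cb b)) (blocks b x.natAbs + 1) (x : ℚ) := by
  have h1 := sp_blocks hb bu hbu x.natAbs
  rcases Int.natAbs_eq x with h | h
  · rw [h, Int.cast_natCast, Int.natAbs_natCast]
    exact h1
  · rw [h, Int.natAbs_neg, Int.cast_neg, Int.cast_natCast, Int.natAbs_natCast]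
    exact uu_neg (cb_neg b) h1

lemma odd_three_pow (j : ℕ) : 3 ^ j % 2 = 1 := by
  induction j with
  | zero => rfl
  | succ j ih => rw [pow_succ]; omega

lemma even_two_pow {i : ℕ} (hi : 1 ≤ i) : 2 ^ i % 2 = 0 := by
  obtain ⟨l, rfl⟩ := Nat.exists_eq_add_of_le' hi
  rw [pow_succ]; omega

lemma zp_cases {b : ℕ} (hb : 2 ≤ b) (bu : ℚˣ) (hbu : (bu : ℚ) = b) {i j : ℕ} (hi : 1 ≤ i)
    {u : ℚˣ} (hu : u ∈ Subgroup.zpowers bu) (h : (u : ℚ) * 3 ^ j = 2 ^ i) :
    ∃ n : ℕ, b ^ n * 3 ^ j = 2 ^ i := by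
  obtain ⟨e, rfl⟩ := Subgroup.mem_zpowers_iff.1 hu
  have hb0 : (b : ℚ) ≠ 0 := by positivity
  rcases Int.eq_nat_or_neg e with ⟨n, rfl | rfl⟩
  · rw [zpow_natCast, Units.val_pow_eq_pow_val, hbu] at h
    exact ⟨n, by exact_mod_cast h⟩
  · exfalso
    rw [zpow_neg, zpow_natCast, Units.val_inv_eq_inv_val, Units.val_pow_eq_pow_val, hbu,
      inv_mul_eq_iff_eq_mul₀ (by positivity)] at h
    have h1 : 3 ^ j = b ^ n * 2 ^ i := by exact_mod_cast h
    have h2 := odd_three_pow j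
    have h3 := even_two_pow hi
    rw [h1, Nat.mul_mod, h3] at h2
    simp at h2

lemma zp_all {b : ℕ} (hb : 2 ≤ b) (hpow : ∀ a : ℕ, b ≠ 2 ^ a) (bu : ℚˣ) (hbu : (bu : ℚ) = b) :
    ∀ i j : ℕ, j ≤ i → 1 ≤ i → ∀ u ∈ Subgroup.zpowers bu, (u : ℚ) * 3 ^ j ≠ 2 ^ i := by
  intro i j _ hi u hu h
  obtain ⟨n, hn⟩ := zp_cases hb bu hbu hi hu h
  rcases Nat.eq_zero_or_pos n with h0 | h0
  · rw [h0, pow_zero, one_mul] at hn
    have h2 := odd_three_pow j
    have h3 := even_two_pow hi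
    omega
  · have h1 : b ∣ 2 ^ i := by
      rw [← hn]
      exact (dvd_pow_self b (by omega)).mul_right _
    obtain ⟨a, _, ha⟩ := (Nat.dvd_prime_pow Nat.prime_two).1 h1
    exact hpow a ha

lemma zp_odd {b : ℕ} (hb : 2 ≤ b) (bu : ℚˣ) (hbu : (bu : ℚ) = b) :
    ∀ i j : ℕ, 1 ≤ j → j ≤ i → ∀ u ∈ Subgroup.zpowers bu, (u : ℚ) * 3 ^ j ≠ 2 ^ i := by
  intro i j hj hi u hu h
  obtain ⟨n, hn⟩ := zp_cases hb bu hbu (by omega) hu h
  have h1 : 3 ∣ 2 ^ i := by
    rw [← hn]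
    exact (dvd_pow_self 3 (by omega)).mul_left _
  have := (Nat.prime_dvd_prime_iff_eq Nat.prime_three Nat.prime_two).1 (Nat.prime_three.dvd_of_dvd_pow h1)
  omega

/-- the group generated by the elements of a finite set of primes -/
def GS (S : Finset ℕ) : Subgroup ℚˣ := Subgroup.closure {u : ℚˣ | ∃ p ∈ S, (u : ℚ) = p}

lemma GS_fg (S : Finset ℕ) : (GS S).FG := by
  have hfin : {u : ℚˣ | ∃ p ∈ S, (u : ℚ) = p}.Finite := by
    have h1 : {u : ℚˣ | ∃ p ∈ S, (u : ℚ) = p} =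
        (fun v : ℚˣ => (v : ℚ)) ⁻¹' ((S.image fun p : ℕ => (p : ℚ) : Finset ℚ) : Set ℚ) := by
      ext u
      simp only [Set.mem_ofPred_eq, Set.mem_preimage, coe_image, Set.mem_image, mem_coe]
      constructor
      · rintro ⟨p, hp, h⟩; exact ⟨p, hp, h.symm⟩
      · rintro ⟨p, hp, h⟩; exact ⟨p, hp, h.symm⟩
    rw [h1]
    exact Set.Finite.preimage (Units.val_injective.injOn) (Finset.finite_toSet _)
  exact ⟨hfin.toFinset, by rw [Set.Finite.coe_toFinset]; rfl⟩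

lemma GS_val {S : Finset ℕ} (hS : ∀ p ∈ S, p.Prime) {q : ℕ} (hq : q.Prime) (hqS : q ∉ S) :
    ∀ u ∈ GS S, padicValRat q (u : ℚ) = 0 := by
  have := Fact.mk hq
  intro u hu
  induction hu using Subgroup.closure_induction with
  | mem x hx =>
    obtain ⟨p, hp, hxp⟩ := hx
    rw [hxp, padicValRat.of_nat]
    have : padicValNat q p = 0 := by
      apply padicValNat.eq_zero_of_not_dvd
      intro h
      have := (Nat.prime_dvd_prime_iff_eq hq (hS p hp)).1 h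
      exact hqS (this ▸ hp)
    rw [this, Nat.cast_zero]
  | one => simp
  | mul x y _ _ hx hy => rw [Units.val_mul, padicValRat.mul x.ne_zero y.ne_zero, hx, hy, add_zero]
  | inv x _ hx => rw [Units.val_inv_eq_inv_val, padicValRat.inv, hx, neg_zero]

lemma val_two {i j : ℕ} {u : ℚˣ} (h : (u : ℚ) * 3 ^ j = 2 ^ i) : padicValRat 2 (u : ℚ) = i := by
  have := Fact.mk Nat.prime_two
  have h1 := congrArg (padicValRat 2) h
  rw [padicValRat.mul u.ne_zero (by positivity), padicValRat.pow, padicValRat.pow] at h1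
  have h2 : padicValRat 2 (3 : ℚ) = 0 := by
    have : (3 : ℚ) = ((3 : ℕ) : ℚ) := by norm_num
    rw [this, padicValRat.of_nat, padicValNat.eq_zero_of_not_dvd (by norm_num), Nat.cast_zero]
  have h3 : padicValRat 2 (2 : ℚ) = 1 := by
    have : (2 : ℚ) = ((2 : ℕ) : ℚ) := by norm_num
    rw [this, padicValRat.of_nat, padicValNat_self, Nat.cast_one]
  rw [h2, h3] at h1
  linarith

lemma val_three {i j : ℕ} {u : ℚˣ} (h : (u : ℚ) * 3 ^ j = 2 ^ i) : padicValRat 3 (u : ℚ) = -j := by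
  have := Fact.mk Nat.prime_three
  have h1 := congrArg (padicValRat 3) h
  rw [padicValRat.mul u.ne_zero (by positivity), padicValRat.pow, padicValRat.pow] at h1
  have h2 : padicValRat 3 (2 : ℚ) = 0 := by
    have : (2 : ℚ) = ((2 : ℕ) : ℚ) := by norm_num
    rw [this, padicValRat.of_nat, padicValNat.eq_zero_of_not_dvd (by norm_num), Nat.cast_zero]
  have h3 : padicValRat 3 (3 : ℚ) = 1 := by
    have : (3 : ℚ) = ((3 : ℕ) : ℚ) := by norm_num
    rw [this, padicValRat.of_nat, padicValNat_self, Nat.cast_one]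
  rw [h2, h3] at h1
  linarith

lemma GS_all {S : Finset ℕ} (hS : ∀ p ∈ S, p.Prime) (h2 : 2 ∉ S) :
    ∀ i j : ℕ, j ≤ i → 1 ≤ i → ∀ u ∈ GS S, (u : ℚ) * 3 ^ j ≠ 2 ^ i := by
  intro i j _ hi u hu h
  have h1 := GS_val hS Nat.prime_two h2 u hu
  rw [val_two h] at h1
  have : i = 0 := by exact_mod_cast h1
  omega

lemma GS_odd {S : Finset ℕ} (hS : ∀ p ∈ S, p.Prime) (h23 : ¬ (2 ∈ S ∧ 3 ∈ S)) :
    ∀ i j : ℕ, 1 ≤ j → j ≤ i → ∀ u ∈ GS S, (u : ℚ) * 3 ^ j ≠ 2 ^ i := by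
  intro i j hj hi u hu h
  by_cases h2 : 2 ∈ S
  · have h3 : 3 ∉ S := fun h3 => h23 ⟨h2, h3⟩
    have h1 := GS_val hS Nat.prime_three h3 u hu
    rw [val_three h] at h1
    have : j = 0 := by
      have : (j : ℤ) = 0 := by linarith
      exact_mod_cast this
    omega
  · exact GS_all hS h2 i j hi (by omega) u hu h

lemma gs_mem {S : Finset ℕ} {p : ℕ} (hp : p ∈ S) {u : ℚˣ} (hu : (u : ℚ) = p) : u ∈ GS S :=
  Subgroup.subset_closure ⟨p, hp, hu⟩

/-- the trajectory of `2 ^ n` -/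
lemma iter_two_pow (n : ℕ) : ∀ t ≤ n, T^[t] ((2 : ℤ) ^ n) = 2 ^ (n - t) := by
  intro t
  induction t with
  | zero => intro _; simp
  | succ t ih =>
    intro ht
    rw [Function.iterate_succ_apply', ih (by omega)]
    have h1 : n - t = (n - (t + 1)) + 1 := by omega
    rw [h1, pow_succ]
    unfold T
    rw [if_pos (by omega)]
    omega

/-- the trajectory of `2 ^ n - 1` -/
lemma iter_two_pow_sub (n : ℕ) : ∀ t ≤ n, T^[t] ((2 : ℤ) ^ n - 1) = 3 ^ t * 2 ^ (n - t) - 1 := by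
  intro t
  induction t with
  | zero => intro _; simp
  | succ t ih =>
    intro ht
    rw [Function.iterate_succ_apply', ih (by omega)]
    have h1 : n - t = (n - (t + 1)) + 1 := by omega
    rw [h1, pow_succ, pow_succ]
    set A : ℤ := 3 ^ t * 2 ^ (n - (t + 1)) with hA
    have e1 : (3 : ℤ) ^ t * (2 ^ (n - (t + 1)) * 2) = 2 * A := by rw [hA]; ring
    have e2 : (3 : ℤ) ^ t * 3 * 2 ^ (n - (t + 1)) = 3 * A := by rw [hA]; ring
    rw [e1, e2]
    unfold T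
    rw [if_neg (by omega)]
    omega

end Pool.Agent.V5helper76.FD
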