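import Pool.Agent.N449.SP.UnitNF
import Pool.Agent.V5helper5.SQ.Class

/-!
# Two terms of a trajectory of the `3x+1` map which are sums of few units
-/

set_option autoImplicit false

namespace Pool.Agent.V5helper76.FD

open Finset Pool.Agent.V5helper5.SQ Pool.Agent.N449.SP

/-- products of an element of `C` and an element of `Γ` -/
def UU (Γ : Subgroup ℚˣ) (C : Finset ℚ) : Set ℚ := {x | ∃ c ∈ C, ∃ u ∈ Γ, x = c * (u : ℚ)}

lemma od_mono (x : ℤ) {i j : ℕ} (h : i ≤ j) : od i x ≤ od j x := by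
  obtain ⟨l, rfl⟩ := Nat.exists_eq_add_of_le h
  rw [od_add]; omega

lemma od_succ_le (x : ℤ) {p a : ℕ} (hp : p < a) (ho : T^[p] x % 2 ≠ 0) : od p x + 1 ≤ od a x := by
  have h1 : od (p + 1) x = od p x + 1 := by rw [od, if_neg ho]
  rw [← h1]
  exact od_mono x hp

/-- the places of the odd terms -/
def B (a : ℕ) (x : ℤ) : Finset ℕ := (range a).filter fun p => T^[p] x % 2 ≠ 0

lemma card_B (x : ℤ) (a : ℕ) : (B a x).card = od a x := by
  induction a with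
  | zero => simp [B, od]
  | succ a ih =>
    rw [B, Finset.range_add_one, Finset.filter_insert, od]
    by_cases h : T^[a] x % 2 = 0
    · rw [if_neg (by simp [h]), if_pos h, add_zero]
      exact ih
    · rw [if_pos h, if_neg h, Finset.card_insert_of_notMem (by simp)]
      rw [← ih, B]

lemma B_even {x : ℤ} {a : ℕ} (h : T^[a] x % 2 = 0) : B (a + 1) x = B a x := by
  rw [B, Finset.range_add_one, Finset.filter_insert, if_neg (by simp [h]), B]

lemma B_odd {x : ℤ} {a : ℕ} (h : T^[a] x % 2 ≠ 0) : B (a + 1) x = insert a (B a x) := by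
  rw [B, Finset.range_add_one, Finset.filter_insert, if_pos h, B]

lemma cc_sum (x : ℤ) (a : ℕ) : (cc a x : ℚ) =
    ∑ p ∈ B a x, (3 : ℚ) ^ (od a x - 1 - od p x) * 2 ^ p := by
  induction a with
  | zero => simp [B, cc]
  | succ a ih =>
    by_cases h : T^[a] x % 2 = 0
    · have e2 : od (a + 1) x = od a x := by rw [od, if_pos h, add_zero]
      have e3 : cc (a + 1) x = cc a x := by rw [cc, if_pos h]
      rw [B_even h, e2, e3]
      exact ih
    · have e2 : od (a + 1) x = od a x + 1 := by rw [od, if_neg h]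
      have e3 : cc (a + 1) x = 3 * cc a x + 2 ^ a := by rw [cc, if_neg h]
      rw [B_odd h, Finset.sum_insert (by simp [B]), e2, e3, show od a x + 1 - 1 - od a x = 0 by omega,
        pow_zero, one_mul, add_comm]
      push_cast
      rw [ih, Finset.mul_sum]
      congr 1
      refine Finset.sum_congr rfl fun p hp => ?_
      rw [B, mem_filter, mem_range] at hp
      have h2 := od_succ_le x hp.1 hp.2
      rw [show od a x - od p x = (od a x - 1 - od p x) + 1 by omega, pow_succ]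
      ring

/-- the group generated by `Γ`, `C`, `2`, `3` and `-1` -/
def G1 (Γ : Subgroup ℚˣ) (C : Finset ℚ) : Subgroup ℚˣ :=
  Γ ⊔ Subgroup.closure {v : ℚˣ | (v : ℚ) ∈ insert 2 (insert 3 (insert (-1) C))}

lemma G1_fg {Γ : Subgroup ℚˣ} (hΓ : Γ.FG) (C : Finset ℚ) : (G1 Γ C).FG := by
  have hfin : {v : ℚˣ | (v : ℚ) ∈ insert 2 (insert 3 (insert (-1) C))}.Finite :=
    Set.Finite.preimage (f := fun v : ℚˣ => (v : ℚ)) (Units.val_injective.injOn)
      (Finset.finite_toSet (insert 2 (insert 3 (insert (-1) C))))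
  refine hΓ.sup ⟨hfin.toFinset, ?_⟩
  rw [Set.Finite.coe_toFinset]

lemma pm_mul {Γ : Subgroup ℚˣ} {x y : ℚ} (hx : x ∈ Pm Γ) (hy : y ∈ Pm Γ) : x * y ∈ Pm Γ := by
  obtain ⟨u, hu, rfl | rfl⟩ := hx <;> obtain ⟨v, hv, rfl | rfl⟩ := hy
  · exact ⟨u * v, mul_mem hu hv, Or.inl (by simp)⟩
  · exact ⟨u * v, mul_mem hu hv, Or.inr (by simp)⟩
  · exact ⟨u * v, mul_mem hu hv, Or.inr (by simp)⟩
  · exact ⟨u * v, mul_mem hu hv, Or.inl (by simp)⟩

lemma pm_pow {Γ : Subgroup ℚˣ} {x : ℚ} (hx : x ∈ Pm Γ) (n : ℕ) : x ^ n ∈ Pm Γ := by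
  induction n with
  | zero => exact ⟨1, one_mem _, Or.inl (by simp)⟩
  | succ n ih => rw [pow_succ]; exact pm_mul ih hx

lemma pm_ne {Γ : Subgroup ℚˣ} {x : ℚ} (hx : x ∈ Pm Γ) : x ≠ 0 := by
  obtain ⟨u, _, rfl | rfl⟩ := hx <;> simp

lemma pm_gen (Γ : Subgroup ℚˣ) (C : Finset ℚ) {x : ℚ} (hx0 : x ≠ 0)
    (hx : x ∈ insert 2 (insert 3 (insert (-1) C))) : x ∈ Pm (G1 Γ C) :=
  ⟨Units.mk0 x hx0, (le_sup_right : _ ≤ G1 Γ C) (Subgroup.subset_closure (by
    change ((Units.mk0 x hx0 : ℚˣ) : ℚ) ∈ insert 2 (insert 3 (insert (-1) C))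
    exact hx)), Or.inl rfl⟩

lemma pm_two (Γ : Subgroup ℚˣ) (C : Finset ℚ) : (2 : ℚ) ∈ Pm (G1 Γ C) := pm_gen Γ C (by norm_num) (by simp)

lemma pm_three (Γ : Subgroup ℚˣ) (C : Finset ℚ) : (3 : ℚ) ∈ Pm (G1 Γ C) := pm_gen Γ C (by norm_num) (by simp)

lemma pm_UU (Γ : Subgroup ℚˣ) (C : Finset ℚ) {x : ℚ} (hx0 : x ≠ 0) (hx : x ∈ UU Γ C) :
    x ∈ Pm (G1 Γ C) := by
  obtain ⟨c, hc, u, hu, rfl⟩ := hx
  exact pm_mul (pm_gen Γ C (left_ne_zero_of_mul hx0) (by simp [hc])) ⟨u, (le_sup_left : _ ≤ G1 Γ C) hu, Or.inl rfl⟩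

theorem pair {Γ : Subgroup ℚˣ} (hΓ : Γ.FG) (C : Finset ℚ) (k : ℕ) :
    ∃ KK : Finset ℚ, (∀ κ ∈ KK, κ ≠ 0) ∧ ∀ m : ℕ, ∃ M : ℚ, 0 < M ∧ ∀ (y : ℤ) (a : ℕ), y ≠ 0 →
      Sp (UU Γ C) k (y : ℚ) → Sp (UU Γ C) k ((T^[a] y : ℤ) : ℚ) → od a y ≤ m →
      (∀ p < a, T^[p] y % 2 ≠ 0 → (3 : ℚ) ^ (od a y - 1 - od p y) * 2 ^ p * M < 3 ^ od a y * |(y : ℚ)|) →
      ∃ κ ∈ KK, ∃ g ∈ Γ, (2 : ℚ) ^ a * (g : ℚ) = 3 ^ od a y * κ := by
  classical
  have hUE := ue_numberField ℚ (G1 Γ C) (G1_fg hΓ C)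
  obtain ⟨R₀, hR₀⟩ := ue_ratio _ hUE (2 * k)
  set C' := C.filter fun c => c ≠ 0 with hC'
  set R' := R₀.filter fun c => c ≠ 0 with hR'
  refine ⟨(R' ×ˢ (C' ×ˢ C')).image fun q => -(q.2.1 / (q.1 * q.2.2)), ?_, ?_⟩
  · intro κ hκ
    rw [Finset.mem_image] at hκ
    obtain ⟨⟨ρ, c, c'⟩, hq, rfl⟩ := hκ
    simp only [Finset.mem_product, hC', hR', mem_filter] at hq
    exact neg_ne_zero.2 (div_ne_zero hq.2.1.2 (mul_ne_zero hq.1.2 hq.2.2.2))
  intro m
  obtain ⟨R, hR⟩ := ue_ratio _ hUE (2 * k + m)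
  have hsumR : 0 ≤ ∑ ρ ∈ R, |ρ| := Finset.sum_nonneg fun _ _ => abs_nonneg _
  refine ⟨k * ∑ ρ ∈ R, |ρ| + 1, by positivity, ?_⟩
  intro y a hy hSy hSy' hom hsmall
  obtain ⟨s, hsU, hss, hsN⟩ := exists_rep _ hSy
  obtain ⟨s', hsU', hss', hsN'⟩ := exists_rep _ hSy'
  set o := od a y with ho
  have hyQ : (y : ℚ) ≠ 0 := by exact_mod_cast hy
  have hne : (univ : Finset (Fin k)).Nonempty := by
    rcases Nat.eq_zero_or_pos k with hk | hk
    · subst hk
      exfalso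
      apply hyQ
      rw [← hss]; simp
    · exact ⟨⟨0, hk⟩, mem_univ _⟩
  obtain ⟨i0, -, hi0⟩ := Finset.exists_max_image univ (fun i => |s i|) hne
  have hmax : |(y : ℚ)| ≤ k * |s i0| := by
    rw [← hss]
    refine (Finset.abs_sum_le_sum_abs _ _).trans ?_
    refine (Finset.sum_le_card_nsmul univ _ |s i0| fun i hi => hi0 i hi).trans ?_
    rw [Finset.card_univ, Fintype.card_fin, nsmul_eq_mul]
  have hypos : 0 < |(y : ℚ)| := abs_pos.2 hyQ
  have hs0 : s i0 ≠ 0 := by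
    intro h
    rw [h, abs_zero, mul_zero] at hmax
    linarith
  set F : Fin k ⊕ Fin k → ℚ := Sum.elim (fun i => -((3 : ℚ) ^ o * s i)) (fun i => (2 : ℚ) ^ a * s' i) with hF
  set f : (Fin k ⊕ Fin k) ⊕ ℕ → ℚ := Sum.elim F (fun p => -((3 : ℚ) ^ (o - 1 - od p y) * 2 ^ p)) with hf
  set J₀ : Finset ((Fin k ⊕ Fin k) ⊕ ℕ) := (univ.filter fun i => F i ≠ 0).disjSum (B a y) with hJ₀
  have hsum0 : ∑ x ∈ J₀, f x = 0 := by
    rw [hJ₀, Finset.sum_disjSum]
    have e1 : ∑ x ∈ univ.filter (fun i => F i ≠ 0), f (Sum.inl x) = ∑ x, F x :=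
      Finset.sum_filter_ne_zero (s := univ) (f := F)
    have e2 : ∑ x ∈ B a y, f (Sum.inr x) = -(cc a y : ℚ) := by
      rw [cc_sum, ← Finset.sum_neg_distrib]
      rfl
    have e3 : ∑ x, F x = -(3 ^ o * (y : ℚ)) + 2 ^ a * ((T^[a] y : ℤ) : ℚ) := by
      rw [Fintype.sum_sum_type, hF]
      simp only [Sum.elim_inl, Sum.elim_inr]
      rw [Finset.sum_neg_distrib, ← Finset.mul_sum, ← Finset.mul_sum, hss, hss']
    have e4 : (2 : ℚ) ^ a * ((T^[a] y : ℤ) : ℚ) = 3 ^ o * (y : ℚ) + cc a y := by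
      have := branch y a
      rw [ho]
      exact_mod_cast this
    rw [e1, e2, e3, e4]
    ring
  have hfU : ∀ x ∈ J₀, f x ∈ Pm (G1 Γ C) := by
    intro x hx
    rw [hJ₀] at hx
    rcases x with (i | i) | p
    · rw [Finset.inl_mem_disjSum, mem_filter] at hx
      have h1 : s i ≠ 0 := by
        intro h
        exact hx.2 (by simp [hF, h])
      have h2 := pm_UU Γ C h1 ((hsU i).resolve_left h1)
      exact Pm.neg _ _ (pm_mul (pm_pow (pm_three Γ C) o) h2)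
    · rw [Finset.inl_mem_disjSum, mem_filter] at hx
      have h1 : s' i ≠ 0 := by
        intro h
        exact hx.2 (by simp [hF, h])
      have h2 := pm_UU Γ C h1 ((hsU' i).resolve_left h1)
      exact pm_mul (pm_pow (pm_two Γ C) a) h2
    · exact Pm.neg _ _ (pm_mul (pm_pow (pm_three Γ C) _) (pm_pow (pm_two Γ C) p))
  obtain ⟨J, hJ, hiJ, hsJ, hmin⟩ := exists_min f (fun J => Sum.inl (Sum.inl i0) ∈ J) J₀ (by
    rw [hJ₀, Finset.inl_mem_disjSum, mem_filter]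
    refine ⟨mem_univ _, ?_⟩
    simp only [hF, Sum.elim_inl]
    exact neg_ne_zero.2 (mul_ne_zero (by positivity) hs0)) hsum0
  have hmin' : ∀ J' ⊆ J, J'.Nonempty → ∑ x ∈ J', f x = 0 → J' = J := by
    intro J' hJ' hne hs'
    by_cases hi' : Sum.inl (Sum.inl i0) ∈ J'
    · exact hmin J' hJ' hi' hs'
    · exfalso
      have h5 := hmin (J \ J') Finset.sdiff_subset (Finset.mem_sdiff.2 ⟨hiJ, hi'⟩) (by
        have := Finset.sum_sdiff hJ' (f := f)
        rw [hs', hsJ, add_zero] at this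
        exact this)
      obtain ⟨x, hx⟩ := hne
      have h6 : x ∈ J \ J' := by rw [h5]; exact hJ' hx
      exact (Finset.mem_sdiff.1 h6).2 hx
  have hcard0 : J₀.card ≤ 2 * k + m := by
    rw [hJ₀, Finset.card_disjSum, card_B]
    have : (univ.filter fun i => F i ≠ 0).card ≤ 2 * k := by
      refine (Finset.card_le_univ _).trans ?_
      rw [Fintype.card_sum, Fintype.card_fin]
      omega
    omega
  -- no constant terms
  have hnoc : ∀ p, Sum.inr p ∉ J := by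
    intro p hp
    have hpB := hJ hp
    rw [hJ₀, Finset.inr_mem_disjSum, B, mem_filter, mem_range] at hpB
    have h5 := hR _ f J ((Finset.card_le_card hJ).trans hcard0) (fun x hx => hfU x (hJ hx)) hsJ hmin' _ hiJ _ hp
    have h6 := hsmall p hpB.1 hpB.2
    have e1 : f (Sum.inl (Sum.inl i0)) = -((3 : ℚ) ^ o * s i0) := rfl
    have e2 : f (Sum.inr p) = -((3 : ℚ) ^ (o - 1 - od p y) * 2 ^ p) := rfl
    set ρ := f (Sum.inl (Sum.inl i0)) / f (Sum.inr p) with hρ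
    have hcp : (0 : ℚ) < (3 : ℚ) ^ (o - 1 - od p y) * 2 ^ p := by positivity
    have h7 : |(3 : ℚ) ^ o * s i0| = |ρ| * ((3 : ℚ) ^ (o - 1 - od p y) * 2 ^ p) := by
      rw [hρ, abs_div, e1, e2, abs_neg, abs_neg, abs_of_pos hcp, div_mul_cancel₀ _ hcp.ne']
    rw [abs_mul, abs_of_pos (by positivity : (0 : ℚ) < 3 ^ o)] at h7
    have h8 : |ρ| ≤ ∑ ρ ∈ R, |ρ| := Finset.single_le_sum (f := fun ρ => |ρ|) (fun _ _ => abs_nonneg _) h5
    have h9 : (3 : ℚ) ^ o * |(y : ℚ)| ≤ (3 : ℚ) ^ (o - 1 - od p y) * 2 ^ p * (k * ∑ ρ ∈ R, |ρ| + 1) := by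
      calc (3 : ℚ) ^ o * |(y : ℚ)| ≤ 3 ^ o * (k * |s i0|) := by gcongr
        _ = k * (3 ^ o * |s i0|) := by ring
        _ = k * (|ρ| * ((3 : ℚ) ^ (o - 1 - od p y) * 2 ^ p)) := by rw [h7]
        _ ≤ k * ((∑ ρ ∈ R, |ρ|) * ((3 : ℚ) ^ (o - 1 - od p y) * 2 ^ p)) := by gcongr
        _ ≤ _ := by nlinarith
    linarith
  -- a term of the second kind
  have h2nd : ∃ i', Sum.inl (Sum.inr i') ∈ J := by
    by_contra hcc
    push Not at hcc
    have h2 : J = (univ.filter fun j => Sum.inl (Sum.inl j) ∈ J).map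
        (Function.Embedding.inl.trans Function.Embedding.inl) := by
      ext x
      rcases x with (x | x) | x
      · simp
      · simp [hcc x]
      · simp [hnoc x]
    have h3 := hsN (univ.filter fun j => Sum.inl (Sum.inl j) ∈ J) ⟨i0, by simpa using hiJ⟩ (by
      intro j hj
      rw [mem_filter] at hj
      have := pm_ne (hfU _ (hJ hj.2))
      intro h
      apply this
      simp [hf, hF, h])
    apply h3
    rw [h2, Finset.sum_map] at hsJ
    have h4 : ∑ x ∈ univ.filter (fun j => Sum.inl (Sum.inl j) ∈ J), -((3 : ℚ) ^ o * s x) = 0 := hsJ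
    rw [Finset.sum_neg_distrib, ← Finset.mul_sum, neg_eq_zero] at h4
    exact (mul_eq_zero.1 h4).resolve_left (by positivity)
  obtain ⟨i', hi'⟩ := h2nd
  have hcard1 : J.card ≤ 2 * k := by
    have : J ⊆ (univ : Finset (Fin k ⊕ Fin k)).map Function.Embedding.inl := by
      intro x hx
      rcases x with x | x
      · simp
      · exact absurd hx (hnoc x)
    refine (Finset.card_le_card this).trans ?_
    rw [Finset.card_map, Finset.card_univ, Fintype.card_sum, Fintype.card_fin]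
    omega
  have h5 := hR₀ _ f J hcard1 (fun x hx => hfU x (hJ hx)) hsJ hmin' _ hiJ _ hi'
  set ρ := f (Sum.inl (Sum.inl i0)) / f (Sum.inl (Sum.inr i')) with hρ
  have e1 : f (Sum.inl (Sum.inl i0)) = -((3 : ℚ) ^ o * s i0) := rfl
  have e2 : f (Sum.inl (Sum.inr i')) = (2 : ℚ) ^ a * s' i' := rfl
  have n1 : f (Sum.inl (Sum.inl i0)) ≠ 0 := pm_ne (hfU _ (hJ hiJ))
  have n2 : f (Sum.inl (Sum.inr i')) ≠ 0 := pm_ne (hfU _ (hJ hi'))
  have hρ0 : ρ ≠ 0 := div_ne_zero n1 n2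
  have hs'0 : s' i' ≠ 0 := by
    intro h
    exact n2 (by rw [e2, h, mul_zero])
  obtain ⟨c, hc, u, hu, hsu⟩ := (hsU i0).resolve_left hs0
  obtain ⟨c', hc', u', hu', hsu'⟩ := (hsU' i').resolve_left hs'0
  have hc0 : c ≠ 0 := by
    rintro rfl
    exact hs0 (by rw [hsu, zero_mul])
  have hc'0 : c' ≠ 0 := by
    rintro rfl
    exact hs'0 (by rw [hsu', zero_mul])
  refine ⟨-(c / (ρ * c')), Finset.mem_image.2 ⟨(ρ, c, c'), ?_, rfl⟩, u' * u⁻¹, mul_mem hu' (inv_mem hu), ?_⟩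
  · simp only [Finset.mem_product, hC', hR', mem_filter]
    exact ⟨⟨h5, hρ0⟩, ⟨hc, hc0⟩, hc', hc'0⟩
  · have h7 : ρ * ((2 : ℚ) ^ a * (c' * u')) = -((3 : ℚ) ^ o * (c * u)) := by
      rw [← hsu, ← hsu', ← e1, ← e2, hρ, div_mul_cancel₀ _ n2]
    have hu0 : (u : ℚ) ≠ 0 := u.ne_zero
    rw [Units.val_mul, Units.val_inv_eq_inv_val]
    field_simp
    linear_combination h7

end Pool.Agent.V5helper76.FD
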